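import Pool.Agent.NH14.LC.Stm
import Pool.Agent.NH14.CN.CoreQ2

/-!
# Project LC: the fields for given data and given local conditions
-/

set_option autoImplicit false

namespace Pool.Agent.NH14.LC

open Polynomial NumberField nonZeroDivisors
open Pool.Agent.W289.CG Pool.Agent.NH14.CN

/-- the fields for given data: the primes of `S` split completely, the primes of `T` are totally ramified -/
def S_FLD : Prop :=
  ∀ (n k : ℕ) (D : Dat n k) (r₁ : ℕ) (v₁ v₂ : ℝ), 2 ≤ n → 1 ≤ k → 0 < v₁ → v₁ < v₂ →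
    (∀ v, v₁ < v → v < v₂ → {X : ℝ | ∏ i, (X - (D.a i : ℝ)) = - v}.ncard = r₁) →
    ∀ m : ℕ, 2 ≤ m → ∀ S T : Finset ℕ,
      (∀ ℓ ∈ S, ℓ.Prime ∧ ¬ (ℓ : ℤ) ∣ D.c ∧ ¬ (ℓ : ℤ) ∣ D.bad) →
      (∀ ℓ ∈ T, ℓ.Prime ∧ ¬ (ℓ : ℤ) ∣ D.c ∧ ¬ (ℓ : ℤ) ∣ D.bad ∧ ¬ ℓ ∣ m) → Disjoint S T → T.Nonempty →
      ∃ (K : Type) (_ : Field K) (_ : NumberField K), Module.finrank ℚ K = n ∧
        InfinitePlace.nrRealPlaces K = r₁ ∧ (∀ ℓ ∈ T, (ℓ : ℤ) ∣ discr K) ∧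
        (∀ ℓ ∈ S, ∀ _ : Fact ℓ.Prime, ∃ φ : Fin n → (K →+* ℚ_[ℓ]), Function.Injective φ) ∧
        (∀ ℓ ∈ T, ∃ P : Ideal (𝓞 K), P.IsPrime ∧ P ^ n = Ideal.span {(ℓ : 𝓞 K)}) ∧
        ∀ R, R + Units.rank K ≤ n + k - 1 →
          ∃ f : Multiplicative (Fin R → ZMod m) →* ClassGroup (𝓞 K), Function.Injective f

theorem t_FLD (hCls : TaskCls) (hVal : TaskVal) (hLoc : TaskLoc) (hEmb : TaskEmb) (hMu : TaskMu)
    (hRed : TaskRed) (hWeil : TaskWeil) (hRoot : TaskRoot) (hSt : TaskSt) (hIrr : TaskIrr)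
    (hDisc : TaskDisc) (hPl : TaskPl) (hGR : Pool.Agent.NH14.LC.S_GR)
    (hST : Pool.Agent.NH14.LC.S_ST) (hTR : S_TR) : S_FLD := by
  classical
  intro n k D r₁ v₁ v₂ hn hk h₁ h₁₂ hcount m hm S T hS hT hdis hTne
  have hcR : (0 : ℝ) < D.c := by exact_mod_cast D.hc
  have h₂ : 0 < v₂ := h₁.trans h₁₂
  have hm0 : m ≠ 0 := by omega
  have hmR : (0 : ℝ) < (m : ℝ)⁻¹ := by positivity
  set x : ℝ := (1 + D.c / v₂) ^ ((m : ℝ)⁻¹) with hx
  set y : ℝ := (1 + D.c / v₁) ^ ((m : ℝ)⁻¹) with hy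
  have hx0 : 0 ≤ 1 + D.c / v₂ := by positivity
  have hy0 : 0 ≤ 1 + D.c / v₁ := by positivity
  have hxm : x ^ m = 1 + D.c / v₂ := Real.rpow_inv_natCast_pow hx0 hm0
  have hym : y ^ m = 1 + D.c / v₁ := Real.rpow_inv_natCast_pow hy0 hm0
  have hx1 : 1 ≤ x := Real.one_le_rpow (by
    have : 0 < D.c / v₂ := div_pos hcR h₂
    linarith) hmR.le
  have hxy : x < y := Real.rpow_lt_rpow hx0 (by
    have : D.c / v₂ < D.c / v₁ := div_lt_div_of_pos_left hcR h₁ h₁₂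
    linarith) hmR
  -- the products
  set Λ : ℤ := ∏ ℓ ∈ S, (ℓ : ℤ) with hΛ
  set Q : ℤ := ∏ ℓ ∈ T, (ℓ : ℤ) with hQ
  have hΛ0 : 0 < Λ := Finset.prod_pos fun ℓ hℓ => by exact_mod_cast (hS ℓ hℓ).1.pos
  have hQ0 : 0 < Q := Finset.prod_pos fun ℓ hℓ => by exact_mod_cast (hT ℓ hℓ).1.pos
  have cp : ∀ {ℓ : ℕ} {z : ℤ}, ℓ.Prime → ¬ (ℓ : ℤ) ∣ z → IsCoprime (ℓ : ℤ) z :=
    fun hℓ h => (coprime_of_prime hℓ h).symm
  have hΛc : IsCoprime Λ D.c := IsCoprime.prod_left fun ℓ hℓ => cp (hS ℓ hℓ).1 (hS ℓ hℓ).2.1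
  have hΛb : IsCoprime Λ D.bad := IsCoprime.prod_left fun ℓ hℓ => cp (hS ℓ hℓ).1 (hS ℓ hℓ).2.2
  have hQc : IsCoprime Q D.c := IsCoprime.prod_left fun ℓ hℓ => cp (hT ℓ hℓ).1 (hT ℓ hℓ).2.1
  have hQb : IsCoprime Q D.bad := IsCoprime.prod_left fun ℓ hℓ => cp (hT ℓ hℓ).1 (hT ℓ hℓ).2.2.1
  have hΛQ : IsCoprime Λ Q := by
    refine IsCoprime.prod_left fun ℓ hℓ => IsCoprime.prod_right fun p hp => ?_
    refine cp (hS ℓ hℓ).1 fun h => ?_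
    have h1 : ℓ ∣ p := by exact_mod_cast h
    have h2 := (Nat.prime_dvd_prime_iff_eq (hS ℓ hℓ).1 (hT p hp).1).1 h1
    subst h2
    exact Finset.disjoint_left.1 hdis hℓ hp
  obtain ⟨q₁, M, s₀, t₀, hM, hcop, hΛQM, hgood⟩ := hGR hWeil hRoot n k D m (by omega) hk hm (Λ * Q)
    (mul_pos hΛ0 hQ0) (hΛc.mul_left hQc) (hΛb.mul_left hQb)
  obtain ⟨s, t, hs, ht, hΛs, hQs, hQt, hs0, hst, hxs, hys⟩ := hST hSt M s₀ t₀ Λ Q x y hM hΛ0 hQ0
    hcop hΛQM.of_mul_left_left hΛQM.of_mul_left_right hΛQ hx1 hxy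
  have hGL := hgood s t hs ht
  have hG : GoodR D m q₁ s t := ⟨hGL.hq₁, hGL.hqm, hGL.hqm', hGL.hq4, hGL.hc₁, hGL.hbad, hGL.hs₁,
    hGL.ht₁, hGL.hsc, hGL.htc, hGL.hsb, hGL.htb, hGL.tests⟩
  have hsR : (0 : ℝ) < s := by exact_mod_cast hs0
  have hslt : s < t := by
    have h1 : (s : ℝ) < t := by nlinarith
    exact_mod_cast h1
  obtain ⟨L, hL0, hLc, hcopL, hsb, htb⟩ := arithR2 hG hm hs0 hslt hst
  have hTL : ∀ ℓ ∈ T, (ℓ : ℤ) ∣ L ∧ ¬ (ℓ : ℤ) ^ 2 ∣ L ∧ ¬ (ℓ : ℤ) ∣ s ^ m := by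
    intro ℓ hℓ
    have hp : Prime (ℓ : ℤ) := Nat.prime_iff_prime_int.1 (hT ℓ hℓ).1
    have hℓQ : (ℓ : ℤ) ∣ Q := Finset.dvd_prod_of_mem _ hℓ
    have hℓs : ¬ (ℓ : ℤ) ∣ s := by
      intro h
      have h1 := h.sub (hℓQ.trans hQs)
      have h2 : (ℓ : ℤ) ∣ 1 := by
        have h3 : s - (s - 1) = 1 := by ring
        rwa [h3] at h1
      exact hp.not_isUnit (isUnit_of_dvd_one h2)
    have h1 : (ℓ : ℤ) ∣ t - s := by
      have h2 : (ℓ : ℤ) ∣ t - s - Q := (hℓQ.trans (dvd_pow_self Q two_ne_zero)).trans hQt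
      have h3 := h2.add hℓQ
      rwa [sub_add_cancel] at h3
    have h2 : ¬ (ℓ : ℤ) ^ 2 ∣ t - s := by
      intro h
      have h3 : (ℓ : ℤ) ^ 2 ∣ t - s - Q := (pow_dvd_pow_of_dvd hℓQ 2).trans hQt
      have h4 : (ℓ : ℤ) ^ 2 ∣ Q := by
        have h5 := h.sub h3
        have h6 : t - s - (t - s - Q) = Q := by ring
        rwa [h6] at h5
      have h5 : Q = ℓ * ∏ p ∈ T.erase ℓ, (p : ℤ) :=
        (Finset.mul_prod_erase T (fun p => (p : ℤ)) hℓ).symm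
      rw [h5, pow_two] at h4
      have h6 := (mul_dvd_mul_iff_left hp.ne_zero).1 h4
      obtain ⟨p, hp', h7⟩ := (Prime.dvd_finset_prod_iff hp _).1 h6
      have h8 : ℓ ∣ p := by exact_mod_cast h7
      have h9 := (Nat.prime_dvd_prime_iff_eq (hT ℓ hℓ).1 (hT p (Finset.mem_of_mem_erase hp')).1).1 h8
      exact (Finset.ne_of_mem_erase hp') h9.symm
    obtain ⟨h10, h11⟩ := exact_power' (hT ℓ hℓ).1 (hT ℓ hℓ).2.2.2 hℓs h1 h2
    exact exact_L (hT ℓ hℓ).1 hLc (hT ℓ hℓ).2.1 h10 h11 hℓs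
  obtain ⟨ℓ₀, hℓ₀⟩ := hTne
  have hirr := hIrr n D.a L (s ^ m) ℓ₀ (by omega) (hT ℓ₀ hℓ₀).1 (hTL ℓ₀ hℓ₀).1 (hTL ℓ₀ hℓ₀).2.1
    (hTL ℓ₀ hℓ₀).2.2 hcopL
  obtain ⟨K, hK1, hK2, θ, hfr, hθ, hgen⟩ := exists_field _ hirr
  rw [natDegree_F (by omega) D.a L _ hL0.ne'] at hfr
  have hθ' := hθ
  rw [eval_F] at hθ'
  have hF : Fld D m s t L K θ := ⟨hLc, by push_cast at hθ'; exact hθ', hgen⟩
  have htn : t ≠ 0 := (hs0.trans hslt).ne'
  have hpt := ne_pt hF hs0.ne' htn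
  have hLR : (0 : ℝ) < L := by exact_mod_cast hL0
  have hLcR : (L : ℝ) * D.c = (t : ℝ) ^ m - (s : ℝ) ^ m := by exact_mod_cast hLc
  -- the value
  have hsm : (0 : ℝ) < (s : ℝ) ^ m := by positivity
  have htR : (s : ℝ) < t := by exact_mod_cast hslt
  have h3 : (1 + D.c / v₂) * (s : ℝ) ^ m < (t : ℝ) ^ m := by
    rw [← hxm, ← mul_pow]
    exact pow_lt_pow_left₀ hxs (by positivity) hm0
  have h4 : (t : ℝ) ^ m < (1 + D.c / v₁) * (s : ℝ) ^ m := by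
    rw [← hym, ← mul_pow]
    exact pow_lt_pow_left₀ hys (by linarith) hm0
  have h5 : 0 < (t : ℝ) ^ m - (s : ℝ) ^ m := by
    have h6 : 0 < D.c / v₂ * (s : ℝ) ^ m := by positivity
    nlinarith
  have hv1 : v₁ < (s : ℝ) ^ m * D.c / ((t : ℝ) ^ m - (s : ℝ) ^ m) := by
    rw [lt_div_iff₀ h5]
    have h6 : (t : ℝ) ^ m - (s : ℝ) ^ m < D.c / v₁ * (s : ℝ) ^ m := by nlinarith
    calc v₁ * ((t : ℝ) ^ m - (s : ℝ) ^ m) < v₁ * (D.c / v₁ * (s : ℝ) ^ m) :=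
          mul_lt_mul_of_pos_left h6 h₁
      _ = (s : ℝ) ^ m * D.c := by field_simp
  have hv2 : (s : ℝ) ^ m * D.c / ((t : ℝ) ^ m - (s : ℝ) ^ m) < v₂ := by
    rw [div_lt_iff₀ h5]
    have h6 : D.c / v₂ * (s : ℝ) ^ m < (t : ℝ) ^ m - (s : ℝ) ^ m := by nlinarith
    calc (s : ℝ) ^ m * D.c = v₂ * (D.c / v₂ * (s : ℝ) ^ m) := by field_simp
      _ < v₂ * ((t : ℝ) ^ m - (s : ℝ) ^ m) := mul_lt_mul_of_pos_left h6 h₂
  set v : ℝ := (s : ℝ) ^ m * D.c / ((t : ℝ) ^ m - (s : ℝ) ^ m) with hv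
  have hvL : v * L = (s : ℝ) ^ m := by
    rw [hv, ← hLcR]
    field_simp
  refine ⟨K, hK1, hK2, hfr, ?_, ?_, ?_, ?_, ?_⟩
  · rw [hPl K _ θ hirr hθ hgen, ← hcount v hv1 hv2]
    congr 1
    ext X
    simp only [Set.mem_setOf_eq]
    rw [eval_F]
    push_cast
    rw [← hvL]
    constructor
    · intro h
      have h6 : (L : ℝ) * (∏ i, (X - (D.a i : ℝ)) + v) = 0 := by linear_combination h
      have h7 := (mul_eq_zero.1 h6).resolve_left hLR.ne'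
      linarith
    · intro h
      rw [h]
      ring
  · exact fun ℓ hℓ => hDisc K n D.a L (s ^ m) ℓ θ hn hfr (hT ℓ hℓ).1 (hTL ℓ hℓ).1 (hTL ℓ hℓ).2.1
      (hTL ℓ hℓ).2.2 hθ' hgen
  · intro ℓ hℓ hfact
    have hp : Prime (ℓ : ℤ) := Nat.prime_iff_prime_int.1 (hS ℓ hℓ).1
    have hℓs : (ℓ : ℤ) ∣ s := (Finset.dvd_prod_of_mem _ hℓ).trans hΛs
    have hℓsm : (ℓ : ℤ) ∣ s ^ m := dvd_pow hℓs hm0
    have hℓt : ¬ (ℓ : ℤ) ∣ t := fun h => hp.not_isUnit (hst.isUnit_of_dvd' hℓs h)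
    have htst : ∀ i, Tst D m ℓ s t (D.a i) := by
      intro i
      have h0 : (pA D.a).eval (D.a i) = 0 := by
        rw [eval_pA]
        exact Finset.prod_eq_zero (Finset.mem_univ i) (sub_self _)
      refine ⟨(hS ℓ hℓ).1, (hS ℓ hℓ).2.1, ?_, ?_, ?_⟩
      · rw [h0, mul_zero, zero_sub, zero_sub, mul_neg, neg_neg]
        exact Dvd.dvd.mul_right hℓsm _
      · intro h
        have h1 := h.add hℓsm
        rw [sub_add_cancel] at h1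
        exact hℓt (hp.dvd_of_dvd_pow h1)
      · intro h
        exact (hS ℓ hℓ).2.2 (h.trans (dvd_bad D (Sum.inl i)))
    choose φ z hφ hz using fun i =>
      hEmb n k D m s t L K θ ℓ (D.a i) hfr (by omega) hL0.ne' hF (htst i)
    refine ⟨φ, fun i j hij => ?_⟩
    by_contra hne
    have h1 : z i = z j := by
      have h2 := hφ i
      rw [hij, hφ j] at h2
      exact (Subtype.coe_injective h2).symm
    have h3 : ((D.a i : ℤ) : ZMod ℓ) = ((D.a j : ℤ) : ZMod ℓ) := by rw [← hz i, ← hz j, h1]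
    have h4 : (ℓ : ℤ) ∣ D.a i - D.a j := by
      rw [← zmod_iff]
      push_cast
      rw [h3, sub_self]
    apply (hS ℓ hℓ).2.2
    refine Dvd.dvd.trans ?_ (dvd_bad D (Sum.inl i))
    have h5 : (derivative (pA D.a)).eval (D.pt (Sum.inl i)) =
        ∏ l ∈ Finset.univ.erase i, (D.a i - D.a l) := by
      have h : pA D.a = Lagrange.nodal Finset.univ D.a := rfl
      change (derivative (pA D.a)).eval (D.a i) = _
      rw [h, Lagrange.eval_nodal_derivative_eval_node_eq (Finset.mem_univ i), Lagrange.eval_nodal]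
    rw [h5]
    exact h4.trans (Finset.dvd_prod_of_mem _ (Finset.mem_erase.2 ⟨Ne.symm hne, Finset.mem_univ j⟩))
  · exact fun ℓ hℓ => hTR K n D.a L (s ^ m) ℓ θ hn hfr (hT ℓ hℓ).1 (hTL ℓ hℓ).1 (hTL ℓ hℓ).2.1
      (hTL ℓ hℓ).2.2 hθ'
  · intro R hR
    obtain ⟨N', hN'⟩ : ∃ N', n + k = N' + 1 := ⟨n + k - 1, by omega⟩
    let σ : Fin (N' + 1) ≃ Fin n ⊕ Fin k := (finCongr hN'.symm).trans finSumFinEquiv.symm
    refine hCls K N' m R hm (by omega) (elt D σ θ hpt) ?_ ?_ ?_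
    · intro i
      refine hVal K m _ (by omega) fun v => ?_
      exact hLoc n k D m s t L K θ (by omega) (by omega) hL0.ne' hs0.ne' htn hF hst hsb htb _ _ v
    · intro ℓ hℓ hℓm
      exact indep_of_tests hEmb hRed hfr (by omega) hL0.ne' hF hpt σ ℓ hℓ (hG.tests ℓ hℓ hℓm)
    · intro ℓ hℓ hℓm
      have hx1 : Tst D m q₁ s t (D.b ⟨0, hk⟩) := by
        have hp : Prime (q₁ : ℤ) := Nat.prime_iff_prime_int.1 hG.hq₁
        refine ⟨hG.hq₁, hG.hc₁, ?_, ?_, ?_⟩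
        · rw [D.hab, sub_self, mul_zero, sub_zero]
          exact Dvd.dvd.mul_right (dvd_pow hG.ht₁ (by omega)) _
        · intro h
          have h1 : (q₁ : ℤ) ∣ s ^ m := by
            have := (dvd_pow hG.ht₁ (show m ≠ 0 by omega)).sub h
            simpa using this
          have h2 := hp.dvd_of_dvd_pow h1
          have h3 : (q₁ : ℤ) ∣ 1 := by
            have := h2.sub hG.hs₁
            simpa using this
          exact hp.not_isUnit (isUnit_of_dvd_one h3)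
        · intro h
          exact hG.hbad (h.trans (dvd_bad D (Sum.inr ⟨0, hk⟩)))
      have hle : ℓ ≤ m := Nat.le_of_dvd (by omega) hℓm
      have hq1 : q₁ - 1 + 2 = q₁ + 1 := by have := hG.hq4; omega
      refine ⟨fun hℓ2 => ?_, fun hℓ2 => ?_⟩
      · refine no_zeta hEmb hMu hfr (by omega) hL0.ne' hF hG.hq₁ hx1 ?_ ?_
        · intro h
          have := Nat.le_of_dvd hℓ.pos h
          have := hG.hqm'
          omega
        · intro h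
          have h1 : ℓ ∣ q₁ + 1 := (hℓm.trans (Dvd.intro_left _ rfl)).trans hG.hqm
          rw [← hq1] at h1
          have h2 : ℓ ∣ 2 := (Nat.dvd_add_right h).1 h1
          exact hℓ2 ((Nat.prime_dvd_prime_iff_eq hℓ Nat.prime_two).1 h2)
      · refine no_zeta hEmb hMu hfr (by omega) hL0.ne' hF hG.hq₁ hx1 ?_ ?_
        · intro h
          have := Nat.le_of_dvd (by norm_num) h
          have := hG.hq4
          omega
        · intro h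
          have h1 : 4 ∣ q₁ + 1 := (Dvd.intro _ rfl).trans hG.hqm
          rw [← hq1] at h1
          have h2 : 4 ∣ 2 := (Nat.dvd_add_right h).1 h1
          norm_num at h2

end Pool.Agent.NH14.LC
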