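import Pool.Agent.NH14.LC.Stm

/-!
# LC-GR: the congruence conditions, with a modulus prime to a given number (helper54, after helper48)
-/

set_option autoImplicit false

namespace Pool.Agent.NH14.LC

open Polynomial NumberField
open Pool.Agent.W289.CG

namespace GRP

/-- finitely many tests can be satisfied simultaneously -/
theorem crt_tests' {ι : Type} (P : ι → ℕ → ℤ → ℤ → Prop)
    (hP : ∀ (τ : ι) (q : ℕ) (s t s' t' : ℤ), (q : ℤ) ∣ s' - s → (q : ℤ) ∣ t' - t → P τ q s t → P τ q s' t')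
    (T : List ι)
    (hT : ∀ τ ∈ T, ∀ Q : ℕ, ∃ q : ℕ, q.Prime ∧ Q < q ∧ ∃ s t : ℤ, ¬ (q : ℤ) ∣ s ∧ P τ q s t)
    (M₀ s₀ t₀ Λ : ℤ) (hM₀ : 0 < M₀) (hs₀ : IsCoprime s₀ M₀) (hΛ0 : Λ ≠ 0)
    (hΛ : IsCoprime Λ M₀) :
    ∃ M s t : ℤ, 0 < M ∧ IsCoprime Λ M ∧ M₀ ∣ M ∧ IsCoprime s M ∧ M₀ ∣ s - s₀ ∧ M₀ ∣ t - t₀ ∧
      ∀ τ ∈ T, ∃ q : ℕ, q.Prime ∧ (q : ℤ) ∣ M ∧ P τ q s t := by
  induction T with
  | nil => exact ⟨M₀, s₀, t₀, hM₀, hΛ, dvd_rfl, hs₀, by simp, by simp, by simp⟩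
  | cons τ T ih =>
    obtain ⟨M, s, t, hM, hΛM, hMM, hsM, hs, ht, hall⟩ := ih (fun τ' h => hT τ' (List.mem_cons_of_mem _ h))
    obtain ⟨q, hq, hMq, s', t', hs', hPq⟩ := hT τ (by simp) (M.toNat + Λ.natAbs)
    have hqM : ¬ (q : ℤ) ∣ M := by
      intro h
      have := Int.le_of_dvd hM h
      omega
    obtain ⟨s₁, t₁, h1, h2, h3, h4, h5⟩ := crt2 (t := t) (t' := t') (coprime_of_prime hq hqM) hsM
      (coprime_of_prime hq hs')
    have hqΛ : ¬ (q : ℤ) ∣ Λ := not_dvd_of_lt hΛ0 (by omega)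
    refine ⟨M * q, s₁, t₁, mul_pos hM (by exact_mod_cast hq.pos),
      IsCoprime.mul_right hΛM (coprime_of_prime hq hqΛ), hMM.mul_right _, h5, ?_, ?_, ?_⟩
    · have := (hMM.trans h1).add hs
      simpa using this
    · have := (hMM.trans h2).add ht
      simpa using this
    · intro τ' hτ'
      rcases List.mem_cons.1 hτ' with rfl | h
      · exact ⟨q, hq, Dvd.intro_left _ rfl, hP _ _ _ _ _ _ h3 h4 hPq⟩
      · obtain ⟨q', hq', hqM', hP'⟩ := hall τ' h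
        exact ⟨q', hq', hqM'.mul_right _, hP _ _ _ _ _ _ (hqM'.trans h1) (hqM'.trans h2) hP'⟩

end GRP

open GRP in
theorem t_GR : S_GR := by
  classical
  intro hW hR n k D m hn hk hm Λ hΛ hΛc hΛb
  set Z : ℤ := D.c * |D.bad| with hZ
  have hZ0 : 0 < Z := mul_pos D.hc (abs_pos.2 (bad_ne D))
  have : NeZero (4 * m) := ⟨by omega⟩
  obtain ⟨q₁, hq₁N, hq₁, hq₁m⟩ := Nat.forall_exists_prime_gt_and_eq_mod (q := 4 * m) (a := -1)
    (isUnit_one.neg) (Z.natAbs + m + 4 + Λ.natAbs)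
  have hd : ∀ q : ℕ, Z.natAbs < q → ¬ (q : ℤ) ∣ Z := fun q hq => not_dvd_of_lt hZ0.ne' hq
  have hc : ∀ q : ℕ, Z.natAbs < q → ¬ (q : ℤ) ∣ D.c := fun q hq h =>
    hd q hq (Dvd.dvd.mul_right h _)
  have hbad : ∀ q : ℕ, Z.natAbs < q → ¬ (q : ℤ) ∣ D.bad := fun q hq h =>
    hd q hq (Dvd.dvd.mul_left ((dvd_abs _ _).2 h) _)
  obtain ⟨s₂, t₂, b1, b2, b3, b4, b5⟩ := crt2 (M := Z) (M' := (q₁ : ℤ)) (s := 1)
    (t := 1) (s' := 1) (t' := 0) (coprime_of_prime hq₁ (hd q₁ (by omega))) isCoprime_one_left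
    isCoprime_one_left
  -- the tests
  set T : List (ℕ × (Fin n ⊕ Fin k → ℕ)) :=
    ((m.primeFactors ×ˢ Fintype.piFinset (fun _ : Fin n ⊕ Fin k => Finset.range m)).filter
      (fun τ => ∃ p, ¬ τ.1 ∣ τ.2 p)).toList with hT
  have hTm : ∀ τ, τ ∈ T ↔ (τ.1 ∈ m.primeFactors ∧ ∀ p, τ.2 p < m) ∧ ∃ p, ¬ τ.1 ∣ τ.2 p := by
    intro τ
    simp [hT]
  have hΛZ : IsCoprime Λ (Z * q₁) := by
    refine IsCoprime.mul_right ?_ (coprime_of_prime hq₁ (not_dvd_of_lt hΛ.ne' (by omega)))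
    rw [hZ]
    refine IsCoprime.mul_right hΛc ?_
    rcases abs_choice D.bad with h | h
    · rw [h]; exact hΛb
    · rw [h]; exact hΛb.neg_right
  obtain ⟨M, s₀, t₀, hM, hΛM, hMM, hcop, hs, ht, hall⟩ := crt_tests' (PT D m) PT.congr T
    (by
      intro τ hτ Q
      rw [hTm] at hτ
      exact exists_test hW hR D m hn hk hm τ (Nat.prime_of_mem_primeFactors hτ.1.1)
        (Nat.dvd_of_mem_primeFactors hτ.1.1) hτ.2 Q)
    (Z * q₁) s₂ t₂ Λ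
    (by
      have h2 : (0 : ℤ) < q₁ := by exact_mod_cast hq₁.pos
      positivity) b5 hΛ.ne' hΛZ
  refine ⟨q₁, M, s₀, t₀, hM, hcop, hΛM, fun s t hs' ht' => ?_⟩
  -- congruences of `s` and `t`
  have e1 : Z * q₁ ∣ s - s₂ := by
    have := (hMM.trans hs').add hs
    simpa using this
  have e2 : Z * q₁ ∣ t - t₂ := by
    have := (hMM.trans ht').add ht
    simpa using this
  have g1 : Z ∣ s - 1 := by
    have := ((Dvd.intro _ rfl).trans e1).add b1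
    simpa using this
  have g2 : Z ∣ t - 1 := by
    have := ((Dvd.intro _ rfl).trans e2).add b2
    simpa using this
  have g5 : (q₁ : ℤ) ∣ s - 1 := by
    have := ((Dvd.intro_left _ rfl).trans e1).add b3
    simpa using this
  have g6 : (q₁ : ℤ) ∣ t := by
    have := ((Dvd.intro_left _ rfl).trans e2).add b4
    simpa using this
  have hZc : D.c ∣ Z := Dvd.intro _ rfl
  have hZb : D.bad ∣ Z := (dvd_abs _ _).2 dvd_rfl |>.mul_left _
  refine ⟨hq₁, ?_, by omega, by omega, hc _ (by omega), hbad _ (by omega), g5, g6, hZc.trans g1,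
    hZc.trans g2, hZb.trans g1, hZb.trans g2, ?_⟩
  · have h1 : ((q₁ + 1 : ℕ) : ZMod (4 * m)) = 0 := by
      push_cast
      rw [hq₁m]
      ring
    exact (ZMod.natCast_eq_zero_iff _ _).1 h1
  · intro ℓ hℓ hℓm h hlt hex
    have hle : ℓ ≤ m := Nat.le_of_dvd (by omega) hℓm
    obtain ⟨q, hq, hqM, hP⟩ := hall (ℓ, h) ((hTm _).2 ⟨⟨Nat.mem_primeFactors.2 ⟨hℓ, hℓm,
      by omega⟩, fun p => (hlt p).trans_le hle⟩, hex⟩)
    exact ⟨q, hq, hP.congr _ _ _ _ _ _ (hqM.trans hs') (hqM.trans ht')⟩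

end Pool.Agent.NH14.LC
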