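import Pool.Agent.NH14.LC.Stm
import Pool.Agent.W289.CG.Crt

/-!
# LC-ST: choice of `s` and `t`
-/

set_option autoImplicit false

namespace Pool.Agent.NH14.LC

open Pool.Agent.W289.CG

theorem t_ST : S_ST := by
  intro hSt M s₀ t₀ Λ Q x y hM hΛ hQ hcop hΛM hQM hΛQ hx hxy
  have hQ2 : IsCoprime M (Q ^ 2) := hQM.symm.pow_right
  obtain ⟨s₁, t₁, a1, a2, a3, a4, a5⟩ := crt2 (M := M) (M' := Q ^ 2) (s := s₀) (t := t₀)
    (s' := 1) (t' := 1 + Q) hQ2 hcop isCoprime_one_left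
  have hΛMQ : IsCoprime Λ (M * Q ^ 2) := hΛM.mul_right hΛQ.pow_right
  obtain ⟨u, v, huv⟩ := hΛMQ
  have hu : IsCoprime u (M * Q ^ 2) := ⟨Λ, v, by linear_combination huv⟩
  obtain ⟨s₂, t₂, b1, b2, b3, b4, b5⟩ := crt2 (M := M * Q ^ 2) (M' := Λ) (s := u * s₁) (t := t₁)
    (s' := 1) (t' := 1) ⟨v, u, by linear_combination huv⟩ (hu.mul_left a5) isCoprime_one_left
  have hΛR : (1 : ℝ) ≤ (Λ : ℝ) := by exact_mod_cast hΛ
  obtain ⟨s', t, c1, c2, c3, c4, c5, c6⟩ := hSt (M * Q ^ 2 * Λ) s₂ t₂ (Λ * x) (Λ * y)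
    (by positivity) b5 (by nlinarith) (by nlinarith) 0
  have e1 : M * Q ^ 2 ∣ Λ * s' - s₁ := by
    have h1 : M * Q ^ 2 ∣ s' - u * s₁ := by
      have := ((Dvd.intro _ rfl).trans c1).add b1
      simpa using this
    have h2 : M * Q ^ 2 ∣ Λ * (s' - u * s₁) := h1.mul_left _
    have h3 : Λ * s' - s₁ = Λ * (s' - u * s₁) + (M * Q ^ 2) * (- v * s₁) := by
      linear_combination s₁ * huv
    rw [h3]
    exact h2.add (Dvd.intro _ rfl)
  have e2 : M * Q ^ 2 ∣ t - t₁ := by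
    have := ((Dvd.intro _ rfl).trans c2).add b2
    simpa using this
  have f1 : M ∣ Λ * s' - s₀ := by
    have := ((Dvd.intro _ rfl).trans e1).add a1
    simpa using this
  have f2 : M ∣ t - t₀ := by
    have := ((Dvd.intro _ rfl).trans e2).add a2
    simpa using this
  have f3 : Q ^ 2 ∣ Λ * s' - 1 := by
    have := ((Dvd.intro_left _ rfl).trans e1).add a3
    simpa using this
  have f4 : Q ^ 2 ∣ t - (1 + Q) := by
    have := ((Dvd.intro_left _ rfl).trans e2).add a4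
    simpa using this
  have f5 : Λ ∣ t - 1 := by
    have := ((Dvd.intro_left _ rfl).trans c2).add b4
    simpa using this
  refine ⟨Λ * s', t, f1, f2, Dvd.intro _ rfl, (dvd_pow_self Q two_ne_zero).trans f3, ?_,
    mul_pos hΛ c3, ?_, ?_, ?_⟩
  · have h := f4.sub f3
    have h1 : t - Λ * s' - Q = t - (1 + Q) - (Λ * s' - 1) := by ring
    rw [h1]
    exact h
  · refine IsCoprime.mul_left ?_ c4
    obtain ⟨w, hw⟩ := f5
    exact ⟨-w, 1, by linear_combination hw⟩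
  · push_cast
    calc x * ((Λ : ℝ) * s') = Λ * x * s' := by ring
      _ < t := c5
  · push_cast
    calc (t : ℝ) < Λ * y * s' := c6
      _ = y * ((Λ : ℝ) * s') := by ring

end Pool.Agent.NH14.LC
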