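import Pool.Agent.W289.CG.Test

/-!
# Project LC: class groups of large `m`-rank and prescribed local conditions, statements
-/

set_option autoImplicit false

namespace Pool.Agent.NH14.LC

open Polynomial NumberField
open Pool.Agent.W289.CG

/-- the congruence conditions on `s` and `t` -/
structure GoodL {n k : ℕ} (D : Dat n k) (m : ℕ) (q₁ : ℕ) (s t : ℤ) : Prop where
  hq₁ : q₁.Prime
  hqm : 4 * m ∣ q₁ + 1
  hqm' : m < q₁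
  hq4 : 4 < q₁
  hc₁ : ¬ (q₁ : ℤ) ∣ D.c
  hbad : ¬ (q₁ : ℤ) ∣ D.bad
  hs₁ : (q₁ : ℤ) ∣ s - 1
  ht₁ : (q₁ : ℤ) ∣ t
  hsc : D.c ∣ s - 1
  htc : D.c ∣ t - 1
  hsb : D.bad ∣ s - 1
  htb : D.bad ∣ t - 1
  tests : ∀ ℓ : ℕ, ℓ.Prime → ℓ ∣ m → ∀ h : Fin n ⊕ Fin k → ℕ, (∀ p, h p < ℓ) →
    (∃ p, ¬ ℓ ∣ h p) → ∃ q : ℕ, q.Prime ∧ PT D m (ℓ, h) q s t

/-- LC-GR: the congruence conditions can be satisfied with a modulus prime to a given number `Λ` which is prime to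
`D.c` and `D.bad`. (Adaptation of `Pool.Agent.NH14.CN.t_GR` (file Pool/Agent/NH14/CN/GR.lean) and of
`Pool.Agent.W289.CG.crt_tests` (file Pool/Agent/W289/CG/Crt.lean): copy `crt_tests` with the additional hypothesis
`IsCoprime Λ M₀` and the additional conclusion `IsCoprime Λ M`; in the induction step take the new prime `q` larger than
`M.toNat + Λ.natAbs`; take `q₁` larger than `Λ.natAbs` too.) -/
def S_GR : Prop :=
  TaskWeil → TaskRoot → ∀ (n k : ℕ) (D : Dat n k) (m : ℕ), 1 ≤ n → 1 ≤ k → 2 ≤ m →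
    ∀ Λ : ℤ, 0 < Λ → IsCoprime Λ D.c → IsCoprime Λ D.bad →
    ∃ (q₁ : ℕ) (M s₀ t₀ : ℤ), 0 < M ∧ IsCoprime s₀ M ∧ IsCoprime Λ M ∧
      ∀ s t : ℤ, M ∣ s - s₀ → M ∣ t - t₀ → GoodL D m q₁ s t

/-- LC-ST: choice of `s` and `t`. (Proof: CRT (`crt2` of Pool/Agent/W289/CG/Crt.lean) twice. First moduli `M` and
`Q ^ 2` with `(s, t) = (s₀, t₀)` and `(1, 1 + Q)`: `s₁, t₁`, `IsCoprime s₁ (M * Q ^ 2)`. Let `u Λ + v M Q ^ 2 = 1`. Second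
moduli `M Q ^ 2` and `Λ` with `(u s₁, t₁)` and `(1, 1)`: `s₂, t₂`, coprime to `M Q ^ 2 Λ`. `hSt` with the modulus
`M Q ^ 2 Λ`, `s₂, t₂` and the real numbers `Λ x < Λ y` (and `B = 0`) gives `s', t`; then `s = Λ s'`.) -/
def S_ST : Prop :=
  TaskSt → ∀ (M s₀ t₀ Λ Q : ℤ) (x y : ℝ), 0 < M → 0 < Λ → 0 < Q → IsCoprime s₀ M → IsCoprime Λ M →
    IsCoprime Q M → IsCoprime Λ Q → 1 ≤ x → x < y →
    ∃ s t : ℤ, M ∣ s - s₀ ∧ M ∣ t - t₀ ∧ Λ ∣ s ∧ Q ∣ s - 1 ∧ Q ^ 2 ∣ t - s - Q ∧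
      0 < s ∧ IsCoprime s t ∧ x * s < t ∧ (t : ℝ) < y * s

/-- LC-TR: total ramification. (Proof: let `P` be a prime ideal above `q`, `v` its valuation. `v(L) = v(q) = exp (-e)`,
`e ≥ 1`, and `v(S) = 1` since `q` does not divide `S`. So `v(∏ (θ - a i)) = exp e > 1`, so `v(θ) > 1` (otherwise all
factors have valuation at most one), so `v(θ - a i) = v(θ)` for all `i` and `v(θ) ^ n = exp e`: `n ∣ e`, and `P ^ n`
divides `(q)`. The norm of `(q)` is `q ^ n`, the norm of `P` is at least `q`: so `P ^ n = (q)`. Compare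
Pool/Agent/W505/CG/Disc.lean and Pool/Agent/W405/CG/Loc.lean.) -/
def S_TR : Prop :=
  ∀ (K : Type) [Field K] [NumberField K] (n : ℕ) (a : Fin n → ℤ) (L S : ℤ) (q : ℕ) (θ : K),
    2 ≤ n → Module.finrank ℚ K = n → q.Prime → (q : ℤ) ∣ L → ¬ (q : ℤ) ^ 2 ∣ L →
    ¬ (q : ℤ) ∣ S → (L : K) * ∏ i, (θ - (a i : K)) + (S : K) = 0 →
    ∃ P : Ideal (𝓞 K), P.IsPrime ∧ P ^ n = Ideal.span {(q : 𝓞 K)}

end Pool.Agent.NH14.LC
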