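import Pool.Agent.NH14.LC.Stm

/-!
# Project LC, LC-TR: total ramification
-/

set_option autoImplicit false

namespace Pool.Agent.NH14.LC

open NumberField IsDedekindDomain WithZero

namespace TR

/-- the valuations of integers are at most one -/
theorem v_int_le {K : Type} [Field K] [NumberField K] (v : HeightOneSpectrum (𝓞 K)) (x : ℤ) :
    v.valuation K (x : K) ≤ 1 := by
  have h := v.valuation_le_one (K := K) (x : 𝓞 K)
  simpa using h

/-- the integers prime to `q` are units at `q` -/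
theorem v_int_one {K : Type} [Field K] [NumberField K] (v : HeightOneSpectrum (𝓞 K)) {q : ℕ}
    (hq : q.Prime) (hv : v.valuation K (q : K) < 1) {x : ℤ} (hx : ¬ (q : ℤ) ∣ x) :
    v.valuation K (x : K) = 1 := by
  refine le_antisymm (v_int_le v x) ?_
  by_contra h
  push Not at h
  have hc : IsCoprime (q : ℤ) x := (Nat.prime_iff_prime_int.1 hq).coprime_iff_not_dvd.2 hx
  obtain ⟨a, b, hab⟩ := hc
  have h1 : (a : K) * (q : K) + (b : K) * (x : K) = 1 := by exact_mod_cast congrArg (Int.cast : ℤ → K) hab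
  have h2 : v.valuation K ((a : K) * (q : K) + (b : K) * (x : K)) < 1 := by
    refine Valuation.map_add_lt _ ?_ ?_
    · rw [map_mul]
      exact lt_of_le_of_lt (mul_le_of_le_one_left' (v_int_le v a)) hv
    · rw [map_mul]
      exact lt_of_le_of_lt (mul_le_of_le_one_left' (v_int_le v b)) h
  rw [h1, map_one] at h2
  exact lt_irrefl _ h2

end TR

open TR in
/-- LC-TR -/
theorem t_TR : S_TR := by
  intro K _ _ n a L S q θ hn hK hq hqL hq2 hqS hrel
  have hnorm : Ideal.absNorm (Ideal.span {(q : 𝓞 K)}) = q ^ n := by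
    rw [Ideal.absNorm_span_natCast, RingOfIntegers.rank, hK]
  have hne : Ideal.span {(q : 𝓞 K)} ≠ ⊤ := by
    intro h
    rw [h, Ideal.absNorm_top] at hnorm
    have := one_lt_pow₀ hq.one_lt (by omega : n ≠ 0)
    omega
  obtain ⟨P, hP, hqP⟩ := Ideal.exists_le_maximal _ hne
  have hqm : (q : 𝓞 K) ∈ P := hqP (Ideal.mem_span_singleton_self _)
  have hq0 : (q : 𝓞 K) ≠ 0 := by exact_mod_cast hq.ne_zero
  have hPbot : P ≠ ⊥ := by
    rintro rfl
    exact hq0 (by simpa using hqm)
  let v : HeightOneSpectrum (𝓞 K) := ⟨P, hP.isPrime, hPbot⟩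
  have hvq : v.valuation K (q : K) < 1 := by
    have h := (v.valuation_lt_one_iff_mem (K := K) (q : 𝓞 K)).2 hqm
    simpa using h
  have hvq0 : v.valuation K (q : K) ≠ 0 := by
    rw [Valuation.ne_zero_iff]
    exact_mod_cast hq.ne_zero
  obtain ⟨L', rfl⟩ := hqL
  have hL' : ¬ (q : ℤ) ∣ L' := fun ⟨c, hc⟩ => hq2 ⟨c, by rw [hc]; ring⟩
  have e1 : v.valuation K (L' : K) = 1 := v_int_one v hq hvq hL'
  have e2 : v.valuation K (S : K) = 1 := v_int_one v hq hvq hqS
  have e3 : v.valuation K (q : K) * ∏ i, v.valuation K (θ - (a i : K)) = 1 := by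
    have h1 : (q : K) * L' * ∏ i, (θ - (a i : K)) = -(S : K) := by
      have := hrel
      push_cast at this
      linear_combination this
    have h2 := congrArg (v.valuation K) h1
    rw [map_mul, map_mul, e1, mul_one, Valuation.map_neg, e2, map_prod] at h2
    exact h2
  have h3 : 1 < v.valuation K θ := by
    by_contra h
    push Not at h
    have h4 : ∏ i, v.valuation K (θ - (a i : K)) ≤ 1 := Finset.prod_le_one' fun i _ =>
      Valuation.map_sub_le _ h (v_int_le v _)
    have h5 : v.valuation K (q : K) * ∏ i, v.valuation K (θ - (a i : K)) < 1 :=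
      lt_of_le_of_lt (mul_le_of_le_one_right' h4) hvq
    exact absurd e3 h5.ne
  have h6 : ∀ i, v.valuation K (θ - (a i : K)) = v.valuation K θ := fun i =>
    Valuation.map_sub_eq_of_lt_left _ ((v_int_le v _).trans_lt h3)
  have e4 : v.valuation K (q : K) * v.valuation K θ ^ n = 1 := by
    rw [← e3]
    simp only [h6, Finset.prod_const, Finset.card_univ, Fintype.card_fin]
  have h7 : v.valuation K (q : K) ≤ exp (-(n : ℤ)) := by
    have hθ0 : v.valuation K θ ≠ 0 := (zero_lt_one.trans h3).ne'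
    obtain ⟨k, hk⟩ : ∃ k : ℤ, v.valuation K θ = exp k :=
      ⟨log (v.valuation K θ), (exp_log hθ0).symm⟩
    obtain ⟨j, hj⟩ : ∃ j : ℤ, v.valuation K (q : K) = exp j :=
      ⟨log (v.valuation K (q : K)), (exp_log hvq0).symm⟩
    rw [hk, ← exp_zero, exp_lt_exp] at h3
    rw [hk, hj, ← exp_nsmul, ← exp_add, ← exp_zero, exp_inj] at e4
    rw [hj, exp_le_exp]
    rw [nsmul_eq_mul] at e4
    have hn0 : (0 : ℤ) ≤ n := by positivity
    nlinarith
  have h9 : P ^ n ∣ Ideal.span {(q : 𝓞 K)} := by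
    refine (v.intValuation_le_pow_iff_dvd (q : 𝓞 K) n).1 ?_
    rw [← v.valuation_of_algebraMap (K := K)]
    simpa using h7
  obtain ⟨I, hI⟩ := h9
  have h10 : Ideal.absNorm P ^ n * Ideal.absNorm I = q ^ n := by
    rw [← hnorm, hI, map_mul, map_pow]
  have h11 : Ideal.absNorm P ∣ q := (Nat.pow_dvd_pow_iff (by omega)).1 ⟨_, h10.symm⟩
  have h12 : Ideal.absNorm P = q := by
    rcases (Nat.dvd_prime hq).1 h11 with h | h
    · exact absurd (Ideal.absNorm_eq_one_iff.1 h) hP.ne_top
    · exact h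
  have h13 : Ideal.absNorm I = 1 := by
    rw [h12] at h10
    exact Nat.eq_of_mul_eq_mul_left (pow_pos hq.pos n) (by rw [h10, mul_one])
  refine ⟨P, hP.isPrime, ?_⟩
  rw [hI, Ideal.absNorm_eq_one_iff.1 h13, Ideal.mul_top]

end Pool.Agent.NH14.LC
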